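import Pool.Agent.H90.IsoD

namespace Pool.Agent.Results.MP_24ca2e_an.Sphere

open Pool.Agent.H90.Iso

/-- A connected multigraph with all degrees at least 2 and a Jacobi matrix on it whose IsoDOS
component is a 2-sphere and is not a torus of any dimension. -/
theorem result : ∃ (V E : Type) (_ : Fintype V) (_ : Fintype E) (s t : E → V),
    Nonempty V ∧ Conn s t ∧ (∀ x, 2 ≤ deg s t x) ∧ ∃ J₀ ∈ Par V E,
      Nonempty (connectedComponentIn (isoDOS s t J₀) J₀ ≃ₜ
        Metric.sphere (0 : EuclideanSpace ℝ (Fin 3)) 1) ∧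
      ∀ k : ℕ, IsEmpty (connectedComponentIn (isoDOS s t J₀) J₀ ≃ₜ (Fin k → Circle)) := by
  refine ⟨VV, Lt, inferInstance, inferInstance, sv, tv, ⟨none⟩, ?_, ?_, main⟩
  · have h1 : ∀ x : VV, Relation.ReflTransGen
        (fun x y => ∃ e, (sv e = x ∧ tv e = y) ∨ (tv e = x ∧ sv e = y)) x none := by
      rintro (_ | i)
      · exact .refl
      · exact .single ⟨(i, true), Or.inr ⟨rfl, rfl⟩⟩
    have h2 : ∀ x : VV, Relation.ReflTransGen
        (fun x y => ∃ e, (sv e = x ∧ tv e = y) ∨ (tv e = x ∧ sv e = y)) none x := by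
      rintro (_ | i)
      · exact .refl
      · exact .single ⟨(i, true), Or.inl ⟨rfl, rfl⟩⟩
    exact fun x y => (h1 x).trans (h2 y)
  · rintro (_ | i)
    · refine le_add_right (Finset.one_lt_card.2 ⟨(0, true), ?_, (0, false), ?_, by simp⟩) <;>
        simp [sv]
    · refine le_add_left (Finset.one_lt_card.2 ⟨(i, true), ?_, (i, false), ?_, by simp⟩) <;>
        simp [tv]

end Pool.Agent.Results.MP_24ca2e_an.Sphere
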